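import Pool.Agent.H36.RZ.Def

/-!
# [H36 RZ Hg] THEOREM R (MP_e49dc9_ag), part (7): consequences of the index theorem on the generic surface
-/

set_option autoImplicit false

namespace Pool.Agent.H36.RZ

open Pool.Agent.H54.RV Pool.Agent.H83.TU Pool.Agent.H83.TK Pool.Agent.H24.TK Pool.Agent.H41.TK Pool.Agent.H24.VP
  Pool.Agent.H24.ZL

section lin

variable {V : Type} [AddCommGroup V] [Module ℝ V] {b : V →ₗ[ℝ] V →ₗ[ℝ] ℝ}

private theorem lin_zero {u v : ℝ} (h : ∀ t : ℝ, 2 * t * u + t ^ 2 * v ≤ 0) : u = 0 := by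
  by_contra hu
  obtain ⟨s, hs⟩ : ∃ s : ℝ, s = 1 / (|v| + 1) := ⟨_, rfl⟩
  have hv : 0 < |v| + 1 := by positivity
  have hs0 : 0 < s := by rw [hs]; positivity
  have hs1 : s * (|v| + 1) = 1 := by rw [hs]; field_simp
  have h1 := h (s * u)
  have h2 : -|v| ≤ v := neg_abs_le v
  have h3 : 0 < u ^ 2 := by positivity
  have h4 : 2 * (s * u) * u + (s * u) ^ 2 * v = s * u ^ 2 * (2 + s * v) := by ring
  have h5 : -1 < s * v := by nlinarith
  rw [h4] at h1
  have h6 : 0 < s * u ^ 2 * (2 + s * v) := mul_pos (mul_pos hs0 h3) (by linarith)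
  linarith

theorem ab_prop (hs : ∀ x y, b x y = b y x) (hh : ∀ x y, 0 < b x x → b x x * b y y ≤ b x y ^ 2) {h m p : V}
    (h0 : 0 < b h h) (hm : 0 ≤ b m m) (hp : b p p = 0) (hmp : b m p = 0) (u : V) :
    b m h * b p u = b p h * b m u := by
  obtain ⟨v, hv⟩ : ∃ v, v = b p h • m - b m h • p := ⟨_, rfl⟩
  have hvx : ∀ x, b v x = b p h * b m x - b m h * b p x := by
    intro x
    rw [hv]
    simp
  have hvh : b v h = 0 := by
    rw [hvx]
    ring
  have hvv : b v v = b p h ^ 2 * b m m := by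
    rw [hvx, hs m v, hs p v, hvx, hvx, hp, hmp, hs p m, hmp]
    ring
  obtain ⟨w, hw⟩ : ∃ w, w = u - (b u h / b h h) • h := ⟨_, rfl⟩
  have hwh : b w h = 0 := by
    rw [hw]
    simp only [map_sub, map_smul, LinearMap.sub_apply, LinearMap.smul_apply, smul_eq_mul]
    field_simp
    ring
  have hvw : b v w = b v u := by
    rw [hw, map_sub, map_smul, hvh, smul_zero, sub_zero]
  have key : ∀ t : ℝ, b v v + 2 * t * b v w + t ^ 2 * b w w ≤ 0 := by
    intro t
    have h1 := hh h (v + t • w) h0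
    have h2 : b h (v + t • w) = 0 := by
      rw [hs, map_add, map_smul, LinearMap.add_apply, LinearMap.smul_apply, hvh, hwh, smul_zero, add_zero]
    have h3 : b (v + t • w) (v + t • w) = b v v + 2 * t * b v w + t ^ 2 * b w w := by
      simp only [map_add, map_smul, LinearMap.add_apply, LinearMap.smul_apply, smul_eq_mul]
      rw [hs w v]
      ring
    rw [h2, h3] at h1
    by_contra hcon
    push Not at hcon
    have := mul_pos h0 hcon
    nlinarith
  have h1 := key 0
  have h2 : 0 ≤ b v v := by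
    rw [hvv]
    positivity
  have h3 : b v w = 0 := lin_zero (v := b w w) fun t => by
    have := key t
    linarith
  rw [hvw, hvx] at h3
  linarith

theorem ab_pos (hh : ∀ x y, 0 < b x x → b x x * b y y ≤ b x y ^ 2) (hs : ∀ x y, b x y = b y x) {h m u : V}
    (h0 : 0 < b h h) (hm : 0 ≤ b m m) (hmh : 0 ≤ b m h) (hu : 0 < b u u) (huh : 0 < b u h) : 0 ≤ b u m := by
  by_contra hcon
  push Not at hcon
  obtain ⟨t, ht⟩ : ∃ t : ℝ, t = - b u m / b u h := ⟨_, rfl⟩
  have ht0 : 0 < t := by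
    rw [ht]
    exact div_pos (by linarith) huh
  have h1 : b u (m + t • h) = 0 := by
    rw [map_add, map_smul, smul_eq_mul, ht]
    field_simp
    ring
  have h2 : b (m + t • h) (m + t • h) = b m m + 2 * t * b m h + t ^ 2 * b h h := by
    simp only [map_add, map_smul, LinearMap.add_apply, LinearMap.smul_apply, smul_eq_mul]
    rw [hs h m]
    ring
  have h3 := hh u (m + t • h) hu
  rw [h1, h2] at h3
  have h4 : 0 < b m m + 2 * t * b m h + t ^ 2 * b h h := by positivity
  have := mul_pos hu h4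
  nlinarith

end lin

variable {k K : Type} [Field k] [Field K] [Algebra k K] {X : Mod k K}
  {T : Cart X → Cart X → Cart X → ℝ} {l : Cart X → ℝ} {c : ℝ} {H : Cart X} {k' L : Type} [Field k'] [Field L]
  [Algebra k' L] {S : Mod k' L} {ψ : Cart X →* Cart S} {r : ℕ} {G : Fin r → Cart X} {p : Fin r → ℝ}

/-- the form `bf` as a bilinear map -/
noncomputable def bl {ι : Type} [Fintype ι] (T : Cart X → Cart X → Cart X → ℝ) (H : Cart X) (F : ι → Cart X) :
    (ι → ℝ) →ₗ[ℝ] (ι → ℝ) →ₗ[ℝ] ℝ :=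
  LinearMap.mk₂ ℝ (bf T H F)
    (by
      intro x y z
      unfold bf
      simp only [Pi.add_apply, add_mul, Finset.sum_add_distrib])
    (by
      intro a x y
      unfold bf
      simp only [Pi.smul_apply, smul_eq_mul, Finset.mul_sum]
      refine Finset.sum_congr rfl fun i _ => Finset.sum_congr rfl fun j _ => ?_
      ring)
    (by
      intro x y z
      unfold bf
      simp only [Pi.add_apply, mul_add, add_mul, Finset.sum_add_distrib])
    (by
      intro a x y
      unfold bf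
      simp only [Pi.smul_apply, smul_eq_mul, Finset.mul_sum]
      refine Finset.sum_congr rfl fun i _ => Finset.sum_congr rfl fun j _ => ?_
      ring)

theorem bl_apply {ι : Type} [Fintype ι] (F : ι → Cart X) (x y : ι → ℝ) : bl T H F x y = bf T H F x y := rfl

theorem bl_symm {ι : Type} [Fintype ι] (ht : Tri T) (F : ι → Cart X) (x y : ι → ℝ) :
    bl T H F x y = bl T H F y x := by
  rw [bl_apply, bl_apply]
  unfold bf
  rw [Finset.sum_comm]
  refine Finset.sum_congr rfl fun i _ => Finset.sum_congr rfl fun j _ => ?_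
  rw [ht.s12]
  ring

/-- the index theorem: `p.p = 0`, `M.M ≥ 0`, `p.M = 0`: `p` and `M` are proportional -/
theorem hg_prop (hr : RR T l c) (hS : Sf H S ψ) (hpp : bf T H G p p = 0) {M : Cart X} (hM : 0 ≤ T M M H)
    (hpM : t1 T G p M H = 0) (U : Cart X) : T M H H * t1 T G p U H = t1 T G p H H * T M U H := by
  have ht := hr.tri
  have hi := t_int hr ⟨H, hS.hH⟩
  obtain ⟨F, hF⟩ : ∃ F : Fin r ⊕ Fin 3 → Cart X, F = Sum.elim G ![M, H, U] := ⟨_, rfl⟩
  have e0 : bf T H F (Sum.elim 0 ![0, 1, 0]) (Sum.elim 0 ![0, 1, 0]) = T H H H := by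
    rw [hF]
    unfold bf
    simp [Fintype.sum_sum_type, Fin.sum_univ_three]
  have e1 : bf T H F (Sum.elim 0 ![1, 0, 0]) (Sum.elim 0 ![1, 0, 0]) = T M M H := by
    rw [hF]
    unfold bf
    simp [Fintype.sum_sum_type, Fin.sum_univ_three]
  have e2 : bf T H F (Sum.elim p ![0, 0, 0]) (Sum.elim p ![0, 0, 0]) = bf T H G p p := by
    rw [hF]
    unfold bf
    simp [Fintype.sum_sum_type, Fin.sum_univ_three]
  have e3 : bf T H F (Sum.elim 0 ![1, 0, 0]) (Sum.elim p ![0, 0, 0]) = t1 T G p M H := by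
    rw [hF]
    unfold bf t1
    simp [Fintype.sum_sum_type, Fin.sum_univ_three]
    refine Finset.sum_congr rfl fun i _ => ?_
    rw [ht.s12]
  have e4 : bf T H F (Sum.elim 0 ![1, 0, 0]) (Sum.elim 0 ![0, 1, 0]) = T M H H := by
    rw [hF]
    unfold bf
    simp [Fintype.sum_sum_type, Fin.sum_univ_three]
  have e5 : bf T H F (Sum.elim p ![0, 0, 0]) (Sum.elim 0 ![0, 0, 1]) = t1 T G p U H := by
    rw [hF]
    unfold bf t1
    simp [Fintype.sum_sum_type, Fin.sum_univ_three]
  have e6 : bf T H F (Sum.elim p ![0, 0, 0]) (Sum.elim 0 ![0, 1, 0]) = t1 T G p H H := by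
    rw [hF]
    unfold bf t1
    simp [Fintype.sum_sum_type, Fin.sum_univ_three]
  have e7 : bf T H F (Sum.elim 0 ![1, 0, 0]) (Sum.elim 0 ![0, 0, 1]) = T M U H := by
    rw [hF]
    unfold bf
    simp [Fintype.sum_sum_type, Fin.sum_univ_three]
  have h1 := ab_prop (b := bl T H F) (bl_symm ht F) (fun x y hx => hdg_real hr hS hi F x y hx)
    (h := Sum.elim 0 ![0, 1, 0]) (m := Sum.elim 0 ![1, 0, 0]) (p := Sum.elim p ![0, 0, 0])
    (by rw [bl_apply, e0]; exact (crv_num hr hS).1) (by rw [bl_apply, e1]; exact hM) (by rw [bl_apply, e2]; exact hpp)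
    (by rw [bl_apply, e3]; exact hpM) (Sum.elim 0 ![0, 0, 1])
  rw [bl_apply, bl_apply, bl_apply, bl_apply, e4, e5, e6, e7] at h1
  exact h1

/-- the index theorem: `u = t H + K p - w` with `u.u > 0`, `u.H > 0`, `M.M ≥ 0`, `M.H ≥ 0`: `u.M ≥ 0` -/
theorem hg_pos (hr : RR T l c) (hS : Sf H S ψ) {M : Cart X} (hM : 0 ≤ T M M H) (hMH : 0 ≤ T M H H)
    {t K₀ : ℝ} {w : Fin r → ℝ}
    (huu : 0 < t ^ 2 * T H H H + 2 * t * K₀ * t1 T G p H H - 2 * t * t1 T G w H H + K₀ ^ 2 * bf T H G p p -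
      2 * K₀ * bf T H G p w + bf T H G w w) (huH : 0 < t * T H H H + K₀ * t1 T G p H H - t1 T G w H H) :
    0 ≤ t * T M H H + K₀ * t1 T G p M H - t1 T G w M H := by
  have ht := hr.tri
  have hi := t_int hr ⟨H, hS.hH⟩
  obtain ⟨F, hF⟩ : ∃ F : Fin r ⊕ Fin 2 → Cart X, F = Sum.elim G ![M, H] := ⟨_, rfl⟩
  obtain ⟨h, hh⟩ : ∃ h : Fin r ⊕ Fin 2 → ℝ, h = Sum.elim (fun _ => (0 : ℝ)) ![0, 1] := ⟨_, rfl⟩
  obtain ⟨m, hm⟩ : ∃ m : Fin r ⊕ Fin 2 → ℝ, m = Sum.elim (fun _ => (0 : ℝ)) ![1, 0] := ⟨_, rfl⟩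
  obtain ⟨q, hq⟩ : ∃ q : (Fin r → ℝ) → Fin r ⊕ Fin 2 → ℝ, q = fun p => Sum.elim p ![0, 0] := ⟨_, rfl⟩
  have e0 : bl T H F h h = T H H H := by
    rw [bl_apply, hF, hh]
    unfold bf
    simp [Fintype.sum_sum_type]
  have e1 : bl T H F m m = T M M H := by
    rw [bl_apply, hF, hm]
    unfold bf
    simp [Fintype.sum_sum_type]
  have e2 : ∀ x y, bl T H F (q x) (q y) = bf T H G x y := by
    intro x y
    rw [bl_apply, hF, hq]
    unfold bf
    simp [Fintype.sum_sum_type]
  have e3 : ∀ x, bl T H F (q x) m = t1 T G x M H := by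
    intro x
    rw [bl_apply, hF, hm, hq]
    unfold bf t1
    simp [Fintype.sum_sum_type]
  have e4 : ∀ x, bl T H F (q x) h = t1 T G x H H := by
    intro x
    rw [bl_apply, hF, hh, hq]
    unfold bf t1
    simp [Fintype.sum_sum_type]
  have e5 : bl T H F m h = T M H H := by
    rw [bl_apply, hF, hh, hm]
    unfold bf
    simp [Fintype.sum_sum_type]
  have hsy := bl_symm ht F (H := H)
  have h1 := ab_pos (b := bl T H F) (fun x y hx => hdg_real hr hS hi F x y hx) hsy (h := h) (m := m)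
    (u := t • h + K₀ • q p - q w) (by rw [e0]; exact (crv_num hr hS).1) (by rw [e1]; exact hM) (by rw [e5]; exact hMH)
    (by
      have e : bl T H F (t • h + K₀ • q p - q w) (t • h + K₀ • q p - q w) =
          t ^ 2 * T H H H + 2 * t * K₀ * t1 T G p H H - 2 * t * t1 T G w H H + K₀ ^ 2 * bf T H G p p -
            2 * K₀ * bf T H G p w + bf T H G w w := by
        simp only [map_add, map_sub, map_smul, LinearMap.add_apply, LinearMap.sub_apply, LinearMap.smul_apply, smul_eq_mul]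
        rw [hsy h (q p), hsy h (q w), hsy (q w) (q p)]
        simp only [e0, e2, e4]
        ring
      rw [e]
      exact huu)
    (by
      simp only [map_add, map_sub, map_smul, LinearMap.add_apply, LinearMap.sub_apply, LinearMap.smul_apply, smul_eq_mul]
      simp only [e0, e4]
      exact huH)
  simp only [map_add, map_sub, map_smul, LinearMap.add_apply, LinearMap.sub_apply, LinearMap.smul_apply, smul_eq_mul] at h1
  rw [hsy h m, e5, e3, e3] at h1
  exact h1

end Pool.Agent.H36.RZ
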