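import Pool.Agent.H24.ZL.Num

/-!
# [H36 RZ Def] THEOREM R (MP_e49dc9_ag), part (7): divisors which are nef on the generic surface
-/

set_option autoImplicit false

namespace Pool.Agent.H36.RZ

open Pool.Agent.H54.RV Pool.Agent.H83.TU Pool.Agent.H83.TK Pool.Agent.H24.TK Pool.Agent.H41.TK Pool.Agent.H24.VP

variable {k K : Type} [Field k] [Field K] [Algebra k K] {X : Mod k K}

/-- `M` is nef on the generic surface -/
def NfS (T : Cart X → Cart X → Cart X → ℝ) (H : Cart X) {k' L : Type} [Field k'] [Field L] [Algebra k' L]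
    (S : Mod k' L) (ψ : Cart X →* Cart S) (M : Cart X) : Prop :=
  ∀ E, Cls S ψ E → 0 ≤ T M E H

/-- `e` divides all degrees on the curve `E` of the generic surface -/
def Dvd (T : Cart X → Cart X → Cart X → ℝ) (H E : Cart X) (e : ℕ) : Prop :=
  1 ≤ e ∧ ∀ G, ∃ z : ℤ, T G E H = e * z

end Pool.Agent.H36.RZ
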