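import Pool.Agent.H36.RZ.Def

/-!
# [H36 RZ Emb] THEOREM R (MP_e49dc9_ag), part (7): the fields of constants of the curves of the generic surface

`e` divides all `T(.,E,H)`: `T(U,E,H) = e φ(U)`.  `K₁` from `cc_qc` (`H24/ZL/Num.lean`): `|φ(G_i)| ≤ K₁ φ(H)`.  If `D < φ(H)` then
`e ≤ T(H,E,H) / D`.  If `φ(H) ≤ D` then the integers `z_i = φ(G_i)` are bounded by `K₁ D` and `0 < ∑ p_i z_i = T(p,E,H) / e`, so `a ≤ ∑ p_i z_i`
with `a` from `fin_pos (K₁ D)`.
-/

set_option autoImplicit false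

namespace Pool.Agent.H36.RZ

open Pool.Agent.H54.RV Pool.Agent.H83.TU Pool.Agent.H83.TK Pool.Agent.H24.TK Pool.Agent.H41.TK Pool.Agent.H24.VP
  Pool.Agent.H24.ZL

variable {k K : Type} [Field k] [Field K] [Algebra k K] {X : Mod k K}
  {T : Cart X → Cart X → Cart X → ℝ} {l : Cart X → ℝ} {c : ℝ} {H : Cart X} {k' L : Type} [Field k'] [Field L]
  [Algebra k' L] {S : Mod k' L} {ψ : Cart X →* Cart S} {r : ℕ} {G : Fin r → Cart X} {p : Fin r → ℝ}

/-- the field of constants is small against `T(H,E,H)`, or `T(p,E,H)` is not small against the field of constants -/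
theorem emb (hX : IsVar X) (hr : RR T l c) (hS : Sf H S ψ)
    (hlin : ∀ z : Fin r → ℤ, ∑ i, p i * z i = 0 → z = 0) (hβ : 0 < t1 T G p H H)
    (hnef : ∀ E, Cls S ψ E → 0 ≤ t1 T G p E H) {D : ℝ} (hD : 0 < D) :
    ∃ a : ℝ, 0 < a ∧ ∀ E, Cls S ψ E → 0 < t1 T G p E H → ∀ e : ℕ, Dvd T H E e →
      (e : ℝ) ≤ T H E H / D + t1 T G p E H / a := by
  obtain ⟨K₁, hK, -, -, hC⟩ := cc_qc hX hr hS hβ hnef
  obtain ⟨a, ha, hfin⟩ := fin_pos hlin (K₁ * D)
  refine ⟨a, ha, fun E hE hpE e he => ?_⟩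
  obtain ⟨hE1, hE2, hE3⟩ := hC E hE
  obtain ⟨he1, hdiv⟩ := he
  have he' : (0 : ℝ) < e := by exact_mod_cast he1
  have hs : T H E H = T E H H := hr.tri.s12 _ _ _
  rw [hs]
  rcases lt_or_ge (D * e) (T E H H) with h1 | h1
  · have h2 : (e : ℝ) < T E H H / D := by
      rw [lt_div_iff₀ hD]
      linarith
    have h3 : 0 ≤ t1 T G p E H / a := div_nonneg hE2 ha.le
    linarith
  · choose z hz using fun i => hdiv (G i)
    have h2 : t1 T G p E H = e * ∑ i, p i * z i := by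
      unfold t1
      rw [Finset.mul_sum]
      refine Finset.sum_congr rfl fun i _ => ?_
      rw [hz i]
      ring
    have h3 : 0 < ∑ i, p i * z i := by
      rw [h2] at hpE
      exact (pos_iff_pos_of_mul_pos hpE).1 he'
    have h4 : ∀ i, |(z i : ℝ)| ≤ K₁ * D := by
      intro i
      have h5 := hE3 i
      rw [hz i, abs_mul, abs_of_pos he'] at h5
      have h6 : e * |(z i : ℝ)| ≤ e * (K₁ * D) := by
        calc e * |(z i : ℝ)| ≤ K₁ * T E H H := h5
          _ ≤ K₁ * (D * e) := mul_le_mul_of_nonneg_left h1 hK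
          _ = e * (K₁ * D) := by ring
      exact le_of_mul_le_mul_left h6 he'
    have h5 : z ≠ 0 := by
      rintro rfl
      simp at h3
    have h6 := hfin z h4 h5
    rw [abs_of_pos h3] at h6
    have h7 : (e : ℝ) ≤ t1 T G p E H / a := by
      rw [le_div_iff₀ ha, h2]
      exact mul_le_mul_of_nonneg_left h6 he'.le
    have h8 : 0 ≤ T E H H / D := div_nonneg hE1.le hD.le
    linarith

end Pool.Agent.H36.RZ
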