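import Pool.Agent.H36.RZ.Shp

/-!
# [H36 RZ Nf1] THEOREM R (MP_e49dc9_ag), part (7): the nef part on the generic surface
-/

set_option autoImplicit false

namespace Pool.Agent.H36.RZ

open Pool.Agent.H54.RV Pool.Agent.H83.TU Pool.Agent.H83.TK Pool.Agent.H24.TK Pool.Agent.H41.TK Pool.Agent.H24.VP

variable {k K : Type} [Field k] [Field K] [Algebra k K] {X : Mod k K}
  {T : Cart X → Cart X → Cart X → ℝ} {l : Cart X → ℝ} {c : ℝ} {H : Cart X} {k' L : Type} [Field k'] [Field L]
  [Algebra k' L] {S : Mod k' L} {ψ : Cart X →* Cart S}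

/-- the degree of a curve is at least one -/
theorem one_le_cls (hr : RR T l c) (hS : Sf H S ψ) {E : Cart X} (hE : Cls S ψ E) : 1 ≤ T E H H := by
  have hT : 0 < T E H H := by
    have h1 := cv_pos hr hS hE hS.hH
    rwa [hr.tri.s12] at h1
  obtain ⟨z1, hz1⟩ := t_int hr ⟨H, hS.hH⟩ E H H
  rw [hz1] at hT ⊢
  exact_mod_cast hT

theorem nefpart (hr : RR T l c) (hS : Sf H S ψ) (W : Cart X) (hW : 0 < h0 (ψ W) 1) :
    ∃ (M : Cart X) (r : ℕ) (E : Fin r → Cart X), (∀ i, Cls S ψ (E i)) ∧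
      (∀ U, T W U H = T M U H + ∑ i, T (E i) U H) ∧ NfS T H S ψ M ∧ h0 (ψ W) 1 ≤ h0 (ψ M) 1 := by
  have ht := hr.tri
  obtain ⟨N, hN⟩ : ∃ N : ℕ, T W H H < N := exists_nat_gt _
  induction N generalizing W with
  | zero =>
    exfalso
    have h1 := h0_nn hr hS W hW
    rw [Nat.cast_zero] at hN
    linarith
  | succ N ih =>
    by_cases hn : NfS T H S ψ W
    · refine ⟨W, 0, Fin.elim0, fun i => i.elim0, fun U => ?_, hn, le_rfl⟩
      rw [Fin.sum_univ_zero, add_zero]
    · unfold NfS at hn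
      push Not at hn
      obtain ⟨E, hE, hEW⟩ := hn
      have h1 := neg_le hr hS hE hEW
      have h2 := one_le_cls hr hS hE
      have h3 : T (W * E⁻¹) H H < N := by
        rw [ht.add, ht.inv]
        rw [Nat.cast_succ] at hN
        linarith
      obtain ⟨M, r, F, hF, hL, hM, hle⟩ := ih (W * E⁻¹) (hW.trans_le h1) h3
      refine ⟨M, r + 1, Fin.cons E F, fun i => ?_, fun U => ?_, hM, h1.trans hle⟩
      · refine Fin.cases ?_ (fun j => ?_) i
        · rw [Fin.cons_zero]
          exact hE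
        · rw [Fin.cons_succ]
          exact hF j
      · rw [Fin.sum_univ_succ, Fin.cons_zero]
        simp only [Fin.cons_succ]
        have h4 := hL U
        rw [ht.add, ht.inv] at h4
        linarith

end Pool.Agent.H36.RZ
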