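import Pool.Agent.H36.RZ.Nf1
import Pool.Agent.H36.RZ.Hg

/-!
# [H36 RZ Nf2] THEOREM R (MP_e49dc9_ag), part (7): sections of divisors which are nef on the generic surface
-/

set_option autoImplicit false

namespace Pool.Agent.H36.RZ

open Pool.Agent.H54.RV Pool.Agent.H83.TU Pool.Agent.H83.TK Pool.Agent.H24.TK Pool.Agent.H41.TK Pool.Agent.H24.VP
  Pool.Agent.H24.ZL

variable {k K : Type} [Field k] [Field K] [Algebra k K] {X : Mod k K}
  {T : Cart X → Cart X → Cart X → ℝ} {l : Cart X → ℝ} {c : ℝ} {H : Cart X} {k' L : Type} [Field k'] [Field L]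
  [Algebra k' L] {S : Mod k' L} {ψ : Cart X →* Cart S} {r : ℕ} {G : Fin r → Cart X} {p : Fin r → ℝ}

private theorem t1_num {A : Cart X} {n : ℕ} {E : Fin n → Cart X} (ht : Tri T)
    (h : ∀ U, T A U H = ∑ i, T (E i) U H) : t1 T G p A H = ∑ i, t1 T G p (E i) H := by
  unfold t1
  rw [Finset.sum_comm]
  refine Finset.sum_congr rfl fun i _ => ?_
  rw [ht.s12, h, Finset.mul_sum]
  refine Finset.sum_congr rfl fun j _ => ?_
  rw [ht.s12]

private theorem prod_pos (hS : Sf H S ψ) {n : ℕ} (F : Fin n → Cart X) (s : ∀ i ∈ Finset.univ, Cls S ψ (F i)) :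
    0 < h0 (ψ (∏ i, F i)) 1 := by
  haveI := hS.char
  have hfd : ∀ D : Cart S, Module.Finite k' (secL D 1) := fun D => fd hS.var hS.gen (hS.amp H hS.hH) D
  refine Finset.prod_induction F (fun R => 0 < h0 (ψ R) 1) (fun A B hA hB => hA.trans_le (mul_s hS A B hB)) ?_ ?_
  · refine Pool.Agent.H32.TK.pos_of_sec (ψ 1) (hfd _) (s := 1) ?_ one_ne_zero
    intro w
    rw [map_one, one_eq, one_pow, mul_one]
    exact (S.O w).one_mem
  · intro i hi
    obtain ⟨y, C, hC, -, hCE⟩ := s i hi
    obtain ⟨f, hf, hf0⟩ := hCE.eff hC.eff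
    exact Pool.Agent.H32.TK.pos_of_sec (ψ (F i)) (hfd _) hf hf0

/-- a nef divisor with sections is trivial or contains a curve `E` with `p.E > 0` -/
theorem exists_pos (hr : RR T l c) (hS : Sf H S ψ) (hlin : ∀ z : Fin r → ℤ, ∑ i, p i * z i = 0 → z = 0)
    (hpp : bf T H G p p = 0) (hnef : ∀ E, Cls S ψ E → 0 ≤ t1 T G p E H)
    (hth : ∃ i, t1 T G p (G i) H ≠ 0) {M : Cart X} (hM : NfS T H S ψ M) (h0M : 0 < h0 (ψ M) 1) :
    h0 (ψ M) 1 = h0 (ψ 1) 1 ∧ (∀ U, T M U H = 0) ∨
      ∃ E R : Cart X, Cls S ψ E ∧ 0 < t1 T G p E H ∧ LEq (ψ M) (ψ (E * R)) ∧ 0 < h0 (ψ R) 1 := by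
  have ht := hr.tri
  obtain ⟨n, F, hF, hL⟩ := dec hr hS M h0M
  have hnum : ∀ U, T M U H = ∑ i, T (F i) U H := by
    intro U
    rw [le_num hr hS hL, ht.prod]
  rcases Nat.eq_zero_or_pos n with h1 | h1
  · left
    subst h1
    refine ⟨?_, fun U => ?_⟩
    · rw [Fin.prod_univ_zero] at hL
      exact hL.h0 1
    · rw [hnum, Fin.sum_univ_zero]
  · right
    by_cases hex : ∃ i, 0 < t1 T G p (F i) H
    · obtain ⟨i, hi⟩ := hex
      obtain ⟨m, rfl⟩ : ∃ m, n = m + 1 := ⟨n - 1, by omega⟩
      refine ⟨F i, ∏ j, F (i.succAbove j), hF i, hi, ?_, prod_pos hS _ fun j _ => hF _⟩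
      rw [Fin.prod_univ_succAbove _ i] at hL
      exact hL
    · exfalso
      push Not at hex
      have h2 : t1 T G p M H = 0 := by
        rw [t1_num ht hnum]
        exact Finset.sum_eq_zero fun i _ => le_antisymm (hex i) (hnef _ (hF i))
      have h3 : 0 ≤ T M M H := by
        rw [hnum]
        exact Finset.sum_nonneg fun i _ => by
          rw [ht.s12]
          exact hM _ (hF i)
      have h4 : 0 < T M H H := by
        rw [hnum]
        have : Nonempty (Fin n) := ⟨⟨0, h1⟩⟩
        refine Finset.sum_pos (fun i _ => ?_) Finset.univ_nonempty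
        have := one_le_cls hr hS (hF i)
        linarith
      have h5 := hg_prop hr hS hpp h3 h2
      have hi := t_int hr ⟨H, hS.hH⟩
      choose z hz using fun i => hi M (G i) H
      have h6 : ∑ i, p i * (z i : ℝ) = 0 := by
        rw [← h2]
        unfold t1
        refine Finset.sum_congr rfl fun i _ => ?_
        rw [← hz i, ht.s12 M]
      have h7 := hlin z h6
      obtain ⟨i, hti⟩ := hth
      have h8 := h5 (G i)
      rw [hz i, h7] at h8
      simp only [Pi.zero_apply, Int.cast_zero, mul_zero] at h8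
      rcases mul_eq_zero.1 h8 with h9 | h9
      · exact h4.ne' h9
      · exact hti h9

theorem nf2 (hr : RR T l c) (hS : Sf H S ψ) (hlin : ∀ z : Fin r → ℤ, ∑ i, p i * z i = 0 → z = 0)
    (hpp : bf T H G p p = 0) (hnef : ∀ E, Cls S ψ E → 0 ≤ t1 T G p E H)
    (hth : ∃ i, t1 T G p (G i) H ≠ 0) {D a : ℝ} (hD : 0 < D) (ha : 0 < a)
    (hemb : ∀ E, Cls S ψ E → 0 < t1 T G p E H → ∀ e : ℕ, Dvd T H E e → (e : ℝ) ≤ T H E H / D + t1 T G p E H / a)
    {M : Cart X} (hM : NfS T H S ψ M) (h0M : 0 < h0 (ψ M) 1) :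
    (h0 (ψ M) 1 : ℝ) ≤ h0 (ψ 1) 1 + T M M H + T H M H / D + t1 T G p M H / a := by
  have ht := hr.tri
  obtain ⟨N, hN⟩ : ∃ N : ℕ, T M H H < N := exists_nat_gt _
  induction N generalizing M with
  | zero =>
    exfalso
    have h1 := h0_nn hr hS M h0M
    rw [Nat.cast_zero] at hN
    linarith
  | succ N ih =>
    rcases exists_pos hr hS hlin hpp hnef hth hM h0M with ⟨h1, h2⟩ | ⟨E, R, hE, hpE, hL, hR⟩
    · have h3 : t1 T G p M H = 0 := by
        unfold t1
        exact Finset.sum_eq_zero fun i _ => by rw [ht.s12, h2, mul_zero]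
      rw [h1, h2 M, ht.s12, h2 H, h3]
      simp
    · obtain ⟨e, he, hcost⟩ := shp hr hS hE
      have hLR : LEq (ψ (M * E⁻¹)) (ψ R) := by
        have h1 := hL.mul (LEq.refl (ψ E⁻¹))
        rw [← map_mul, ← map_mul, mul_right_comm E R, mul_inv_cancel, one_mul] at h1
        exact h1
      have h0R : 0 < h0 (ψ (M * E⁻¹)) 1 := by
        rw [hLR.h0 1]
        exact hR
      obtain ⟨M', m, F', hF', hM', hnf, hle⟩ := nefpart hr hS (M * E⁻¹) h0R
      have hnE := one_le_cls hr hS hE
      have h1 : ∀ U, T M U H = T E U H + T M' U H + ∑ i, T (F' i) U H := by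
        intro U
        have := hM' U
        rw [ht.add, ht.inv] at this
        linarith
      have h2 : T M' H H < N := by
        have h3 := h1 H
        have h4 : 0 ≤ ∑ i, T (F' i) H H := Finset.sum_nonneg fun i _ => by
          have := one_le_cls hr hS (hF' i)
          linarith
        rw [Nat.cast_succ] at hN
        linarith
      have h3 := ih hnf (h0R.trans_le hle) h2
      have h4 := hcost M (hM E hE)
      have h5 := hemb E hE hpE e he
      have h6 : (h0 (ψ (M * E⁻¹)) 1 : ℝ) ≤ h0 (ψ M') 1 := by exact_mod_cast hle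
      have h7 : T M' M' H + T M E H ≤ T M M H := by
        have a1 := h1 M
        have a2 := h1 M'
        have a3 : 0 ≤ ∑ i, T (F' i) M H := Finset.sum_nonneg fun i _ => by
          rw [ht.s12]
          exact hM _ (hF' i)
        have a4 : 0 ≤ ∑ i, T (F' i) M' H := Finset.sum_nonneg fun i _ => by
          rw [ht.s12]
          exact hnf _ (hF' i)
        have a5 := ht.s12 M M' H
        have a6 := ht.s12 E M H
        have a7 := hnf E hE
        rw [ht.s12] at a7
        linarith
      have h8 : T H M' H + T H E H ≤ T H M H := by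
        have a1 := h1 H
        have a3 : 0 ≤ ∑ i, T (F' i) H H := Finset.sum_nonneg fun i _ => by
          have := one_le_cls hr hS (hF' i)
          linarith
        rw [ht.s12 H M', ht.s12 H E, ht.s12 H M]
        linarith
      have h9 : t1 T G p M' H + t1 T G p E H ≤ t1 T G p M H := by
        have a1 : t1 T G p M H = t1 T G p E H + t1 T G p M' H + ∑ i, t1 T G p (F' i) H := by
          unfold t1
          rw [Finset.sum_comm, ← Finset.sum_add_distrib, ← Finset.sum_add_distrib]
          refine Finset.sum_congr rfl fun i _ => ?_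
          rw [ht.s12 _ M, h1, ht.s12 _ E, ht.s12 _ M', ← Finset.mul_sum, ← mul_add, ← mul_add]
          congr 2
          exact Finset.sum_congr rfl fun j _ => ht.s12 _ _ _
        have a3 : 0 ≤ ∑ i, t1 T G p (F' i) H := Finset.sum_nonneg fun i _ => hnef _ (hF' i)
        linarith
      have h10 : T H M' H / D + T H E H / D ≤ T H M H / D := by
        rw [← add_div]
        exact div_le_div_of_nonneg_right h8 hD.le
      have h11 : t1 T G p M' H / a + t1 T G p E H / a ≤ t1 T G p M H / a := by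
        rw [← add_div]
        exact div_le_div_of_nonneg_right h9 ha.le
      linarith

end Pool.Agent.H36.RZ
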