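import Pool.Agent.H36.RZ.Def
import Pool.Agent.H83.RT.Dvd

/-!
# [H36 RZ Shp] THEOREM R (MP_e49dc9_ag), part (7): the cost of the removal of a curve of the generic surface

`E` the class of the curve `Γ` (generic point `y`), `e := h0 (1 : Cart Γ) 1`.  `cv_num`: `T W E H = dg (resD (ψ W))`; `dg_dvd`; `cv_le`;
`h0 (resD (ψ W)) 1 ≤ dg + e` (the library bound `h0_le_dg` of `H41/TK/DG.lean`).  `neg_le`: `cv_le`, `cv_num`, `h0_neg`.
-/

set_option autoImplicit false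

namespace Pool.Agent.H36.RZ

open Pool.Agent.H54.RV Pool.Agent.H83.TU Pool.Agent.H83.TK Pool.Agent.H24.TK Pool.Agent.H41.TK Pool.Agent.H24.VP

variable {k K : Type} [Field k] [Field K] [Algebra k K] {X : Mod k K}
  {T : Cart X → Cart X → Cart X → ℝ} {l : Cart X → ℝ} {c : ℝ} {H : Cart X} {k' L : Type} [Field k'] [Field L]
  [Algebra k' L] {S : Mod k' L} {ψ : Cart X →* Cart S}

theorem shp (hr : RR T l c) (hS : Sf H S ψ) {E : Cart X} (hE : Cls S ψ E) :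
    ∃ e : ℕ, Dvd T H E e ∧ ∀ W, 0 ≤ T W E H → (h0 (ψ W) 1 : ℝ) ≤ h0 (ψ (W * E⁻¹)) 1 + T W E H + e := by
  obtain ⟨y, C, hC, ht, hCE⟩ := hE
  have hchar := hS.char
  obtain ⟨h1, -⟩ := cv_num hr hS hC ht hCE
  have hΓ := cv_crv hS ht
  refine ⟨h0 (1 : Cart (subM hS.var y)) 1, ⟨h0_one_pos hΓ, fun G => ?_⟩, fun W hW => ?_⟩
  · obtain ⟨z, hz⟩ := Pool.Agent.H83.RT.dg_dvd hΓ (resD hS.var y (ψ G))
    refine ⟨z, ?_⟩
    rw [← h1, hz]
    push_cast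
    ring
  · have h2 := cv_le hS hC hCE W
    have h3 : 0 ≤ dg (resD hS.var y (ψ W)) := by
      rw [← h1] at hW
      exact_mod_cast hW
    have h4 := h0_le_dg hΓ _ h3
    have h5 : (h0 (resD hS.var y (ψ W)) 1 : ℝ) ≤ T W E H + h0 (1 : Cart (subM hS.var y)) 1 := by
      rw [← h1]
      exact_mod_cast h4
    have h6 : (h0 (ψ W) 1 : ℝ) ≤ h0 (ψ (W * E⁻¹)) 1 + h0 (resD hS.var y (ψ W)) 1 := by exact_mod_cast h2
    linarith

theorem neg_le (hr : RR T l c) (hS : Sf H S ψ) {E : Cart X} (hE : Cls S ψ E) {W : Cart X} (hW : T W E H < 0) :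
    h0 (ψ W) 1 ≤ h0 (ψ (W * E⁻¹)) 1 := by
  obtain ⟨y, C, hC, ht, hCE⟩ := hE
  have hchar := hS.char
  obtain ⟨h1, -⟩ := cv_num hr hS hC ht hCE
  have h2 := cv_le hS hC hCE W
  have h3 : dg (resD hS.var y (ψ W)) < 0 := by
    rw [← h1] at hW
    exact_mod_cast hW
  rw [h0_neg (cv_crv hS ht) _ h3, add_zero] at h2
  exact h2

end Pool.Agent.H36.RZ
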