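import Pool.Agent.H36.RZ.Nf2
import Pool.Agent.H36.RZ.Emb
import Pool.Agent.H24.ZL.LowZ

/-!
# [H36 RZ Up] THEOREM R (MP_e49dc9_ag), part (7): the upper bound for the sections near a real nef class `p` with
`p.p = 0` on the generic surface
-/

set_option autoImplicit false

namespace Pool.Agent.H36.RZ

open Pool.Agent.H54.RV Pool.Agent.H83.TU Pool.Agent.H83.TK Pool.Agent.H24.TK Pool.Agent.H41.TK Pool.Agent.H24.VP
  Pool.Agent.H24.ZL

variable {k K : Type} [Field k] [Field K] [Algebra k K] {X : Mod k K}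
  {T : Cart X → Cart X → Cart X → ℝ} {l : Cart X → ℝ} {c : ℝ} {H : Cart X} {k' L : Type} [Field k'] [Field L]
  [Algebra k' L] {S : Mod k' L} {ψ : Cart X →* Cart S} {r : ℕ} {G : Fin r → Cart X} {p : Fin r → ℝ}

/-- `T(p,W,H)` -/
theorem t1_pw (ht : Tri T) (n : Fin r → ℤ) :
    t1 T G p (∏ i, G i ^ n i) H = ∑ i, (n i : ℝ) * t1 T G p (G i) H := by
  unfold t1
  simp only [Finset.mul_sum]
  rw [Finset.sum_comm]
  refine Finset.sum_congr rfl fun i _ => ?_
  rw [ht.s12, zprod ht, Finset.mul_sum]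
  refine Finset.sum_congr rfl fun j _ => ?_
  rw [ht.s12 (G j)]
  ring

theorem bf_t1 (ht : Tri T) (w : Fin r → ℝ) : bf T H G p w = ∑ i, w i * t1 T G p (G i) H := by
  unfold bf t1
  rw [Finset.sum_comm]
  refine Finset.sum_congr rfl fun i _ => ?_
  rw [Finset.mul_sum]
  refine Finset.sum_congr rfl fun j _ => ?_
  ring

/-- **(UP)** -/
theorem up (hX : IsVar X) (hr : RR T l c) (hS : Sf H S ψ) (hlin : ∀ z : Fin r → ℤ, ∑ i, p i * z i = 0 → z = 0)
    (hpp : bf T H G p p = 0) (hβ : 0 < t1 T G p H H) (hnef : ∀ E, Cls S ψ E → 0 ≤ t1 T G p E H) (R₀ : ℝ)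
    {ε₀ η : ℝ} (hε : 0 < ε₀) (hη : 0 < η) :
    ∃ C x₀ : ℝ, ∀ (n : Fin r → ℤ) (x : ℝ), x₀ ≤ x → (∀ i, |(n i : ℝ) - x * p i| ≤ R₀) →
      0 < ∑ i, (n i : ℝ) * t1 T G p (G i) H → ∑ i, (n i : ℝ) * t1 T G p (G i) H ≤ ε₀ →
        (h0 (ψ (∏ i, G i ^ n i)) 1 : ℝ) ≤ (3 * ε₀ + η) * x + C := by
  have ht := hr.tri
  obtain ⟨R, hRd⟩ : ∃ R, R = max R₀ 0 := ⟨_, rfl⟩
  have hR : 0 ≤ R := by rw [hRd]; exact le_max_right _ _
  obtain ⟨β, hβd⟩ : ∃ β, β = t1 T G p H H := ⟨_, rfl⟩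
  have hβ0 : 0 < β := by rw [hβd]; exact hβ
  obtain ⟨a, ha, hemb⟩ := emb hX hr hS hlin hβ hnef (D := β / η) (by positivity)
  obtain ⟨κ, hκ⟩ : ∃ κ, κ = T H H H := ⟨_, rfl⟩
  have hκ0 : 0 < κ := by rw [hκ]; exact (crv_num hr hS).1
  obtain ⟨t, htd⟩ : ∃ t, t = 2 * ε₀ / β := ⟨_, rfl⟩
  have ht0 : 0 < t := by rw [htd]; positivity
  have htβ : t * β = 2 * ε₀ := by rw [htd]; field_simp
  obtain ⟨C₃, hC₃⟩ : ∃ C₃, C₃ = R * ∑ i, |T (G i) H H| := ⟨_, rfl⟩
  have hC₃0 : 0 ≤ C₃ := by rw [hC₃]; exact mul_nonneg hR (Finset.sum_nonneg fun i _ => abs_nonneg _)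
  obtain ⟨C₄, hC₄⟩ : ∃ C₄, C₄ = R * ∑ i, (R * ∑ j, |T (G i) (G j) H|) := ⟨_, rfl⟩
  have hC₄0 : 0 ≤ C₄ := by
    rw [hC₄]
    exact mul_nonneg hR (Finset.sum_nonneg fun i _ => mul_nonneg hR (Finset.sum_nonneg fun i _ => abs_nonneg _))
  obtain ⟨K₀, hK₀⟩ : ∃ K₀, K₀ = (2 * t * C₃ + C₄ + 1) / (2 * ε₀) := ⟨_, rfl⟩
  have hK0 : 0 ≤ K₀ := by rw [hK₀]; positivity
  have hKε : K₀ * (2 * ε₀) = 2 * t * C₃ + C₄ + 1 := by rw [hK₀]; field_simp
  refine ⟨h0 (ψ 1) 1 + t * C₃ + K₀ * ε₀ + C₃ / (β / η) + ε₀ / a, 0, fun n x hx hn hθ0 hθ => ?_⟩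
  obtain ⟨W, hW⟩ : ∃ W, W = ∏ i, G i ^ n i := ⟨_, rfl⟩
  obtain ⟨w, hw⟩ : ∃ w : Fin r → ℝ, w = fun i => (n i : ℝ) - x * p i := ⟨_, rfl⟩
  have hwR : ∀ i, |w i| ≤ R := fun i => by
    rw [hw, hRd]
    exact (hn i).trans (le_max_left _ _)
  have hn1 : ∀ U V, T W U V = x * t1 T G p U V + t1 T G w U V := by
    intro U V
    rw [hW, near1 (p := p) ht n x, hw]
    rfl
  rw [← hW]
  rcases Nat.eq_zero_or_pos (h0 (ψ W) 1) with h1 | h1
  · rw [h1, Nat.cast_zero]
    positivity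
  obtain ⟨M, m, F, hF, hL, hM, hle⟩ := nefpart hr hS W h1
  have hpM : t1 T G p M H ≤ ε₀ := by
    have e1 : t1 T G p W H = t1 T G p M H + ∑ i, t1 T G p (F i) H := by
      unfold t1
      rw [Finset.sum_comm, ← Finset.sum_add_distrib]
      refine Finset.sum_congr rfl fun i _ => ?_
      rw [ht.s12 _ W, hL, ht.s12 _ M, ← Finset.mul_sum, ← mul_add]
      congr 2
      exact Finset.sum_congr rfl fun j _ => ht.s12 _ _ _
    have e2 : 0 ≤ ∑ i, t1 T G p (F i) H := Finset.sum_nonneg fun i _ => hnef _ (hF i)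
    have e3 := t1_pw (G := G) (p := p) (H := H) ht n
    rw [← hW] at e3
    linarith
  have h0M : 0 < h0 (ψ M) 1 := h1.trans_le hle
  have hMM : 0 ≤ T M M H := by
    obtain ⟨q, F', hF', hL'⟩ := dec hr hS M h0M
    rw [le_num hr hS hL', ht.prod]
    exact Finset.sum_nonneg fun i _ => by
      rw [ht.s12]
      exact hM _ (hF' i)
  have hpM0 : 0 ≤ t1 T G p M H := by
    obtain ⟨q, F', hF', hL'⟩ := dec hr hS M h0M
    have e1 : t1 T G p M H = ∑ i, t1 T G p (F' i) H := by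
      unfold t1
      rw [Finset.sum_comm]
      refine Finset.sum_congr rfl fun i _ => ?_
      rw [ht.s12, le_num hr hS hL', ht.prod, Finset.mul_sum]
      refine Finset.sum_congr rfl fun j _ => ?_
      rw [ht.s12]
    rw [e1]
    exact Finset.sum_nonneg fun i _ => hnef _ (hF' i)
  have hMH0 : 0 ≤ T M H H := h0_nn hr hS M h0M
  have hwH : |t1 T G w H H| ≤ C₃ := by
    rw [hC₃]
    exact sum_bd w (fun i => T (G i) H H) hwR
  have hww : |bf T H G w w| ≤ C₄ := by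
    rw [hC₄]
    have e : bf T H G w w = ∑ i, w i * ∑ j, w j * T (G i) (G j) H := by
      unfold bf
      refine Finset.sum_congr rfl fun i _ => ?_
      rw [Finset.mul_sum]
      refine Finset.sum_congr rfl fun j _ => ?_
      ring
    rw [e]
    refine (sum_bd _ _ hwR).trans ?_
    exact mul_le_mul_of_nonneg_left (Finset.sum_le_sum fun i _ => sum_bd _ _ hwR) hR
  have hMHle : T M H H ≤ x * β + C₃ := by
    have e1 := hL H
    have e2 : 0 ≤ ∑ i, T (F i) H H := Finset.sum_nonneg fun i _ => by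
      have := one_le_cls hr hS (hF i)
      linarith
    have e3 := hn1 H H
    rw [← hβd] at e3
    have e4 := (abs_le.1 hwH).2
    linarith
  have hpw : bf T H G p w = ∑ i, (n i : ℝ) * t1 T G p (G i) H := by
    have e1 := bf_t1 (G := G) (H := H) (p := p) ht w
    have e2 := bf_t1 (G := G) (H := H) (p := p) ht p
    rw [hpp] at e2
    rw [e1]
    have e3 : ∑ i, w i * t1 T G p (G i) H = ∑ i, (n i : ℝ) * t1 T G p (G i) H - x * ∑ i, p i * t1 T G p (G i) H := by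
      rw [Finset.mul_sum, ← Finset.sum_sub_distrib]
      refine Finset.sum_congr rfl fun i _ => ?_
      rw [hw]
      ring
    rw [e3, ← e2, mul_zero, sub_zero]
  have hwM : t1 T G w M H ≤ t * T M H H + K₀ * t1 T G p M H := by
    have a1 := abs_le.1 hwH
    have a2 := abs_le.1 hww
    have h2 := hg_pos (G := G) (p := p) hr hS hMM hMH0 (t := t) (K₀ := K₀) (w := w)
      (by
        rw [hpp, hpw, ← hβd, ← hκ]
        have b1 : 2 * t * t1 T G w H H ≤ 2 * t * C₃ := mul_le_mul_of_nonneg_left a1.2 (by positivity)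
        have b2 : K₀ * (∑ i, (n i : ℝ) * t1 T G p (G i) H) ≤ K₀ * ε₀ := mul_le_mul_of_nonneg_left hθ hK0
        have b3 : 2 * t * K₀ * β = 4 * (K₀ * ε₀) := by
          calc 2 * t * K₀ * β = 2 * K₀ * (t * β) := by ring
            _ = _ := by rw [htβ]; ring
        have b4 : 0 < t ^ 2 * κ := by positivity
        rw [b3]
        linarith)
      (by
        rw [← hβd, ← hκ]
        have b1 : 0 < t * κ := by positivity
        have b2 : C₃ ≤ K₀ * β := by
          have c1 : 2 * t * C₃ ≤ K₀ * (2 * ε₀) := by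
            rw [hKε]
            linarith
          rw [← htβ] at c1
          have c2 : t * (2 * C₃) ≤ t * (K₀ * β) := by linarith
          have c3 := le_of_mul_le_mul_left c2 ht0
          linarith
        linarith)
    linarith
  have hMM' : T M M H ≤ 3 * ε₀ * x + t * C₃ + K₀ * ε₀ := by
    have e1 := hL M
    have e2 : 0 ≤ ∑ i, T (F i) M H := Finset.sum_nonneg fun i _ => by
      rw [ht.s12]
      exact hM _ (hF i)
    have e3 := hn1 M H
    have e4 : x * t1 T G p M H ≤ x * ε₀ := mul_le_mul_of_nonneg_left hpM hx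
    have e5 : K₀ * t1 T G p M H ≤ K₀ * ε₀ := mul_le_mul_of_nonneg_left hpM hK0
    have e6 : t * T M H H ≤ t * (x * β + C₃) := mul_le_mul_of_nonneg_left hMHle ht0.le
    have e7 : t * (x * β + C₃) = 2 * ε₀ * x + t * C₃ := by
      calc t * (x * β + C₃) = (t * β) * x + t * C₃ := by ring
        _ = _ := by rw [htβ]
    linarith
  have hth : ∃ i, t1 T G p (G i) H ≠ 0 := by
    by_contra hcon
    push Not at hcon
    rw [Finset.sum_eq_zero fun i _ => by rw [hcon i, mul_zero]] at hθ0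
    exact lt_irrefl _ hθ0
  have h3 := nf2 hr hS hlin hpp hnef hth (D := β / η) (a := a) (by positivity) ha hemb hM h0M
  have h4 : T H M H / (β / η) ≤ η * x + C₃ / (β / η) := by
    have e1 : T H M H ≤ x * β + C₃ := by
      rw [ht.s12]
      exact hMHle
    have e2 : T H M H / (β / η) ≤ (x * β + C₃) / (β / η) := div_le_div_of_nonneg_right e1 (by positivity)
    have e3 : (x * β + C₃) / (β / η) = η * x + C₃ / (β / η) := by
      field_simp
    linarith
  have h5 : t1 T G p M H / a ≤ ε₀ / a := div_le_div_of_nonneg_right hpM ha.le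
  have h6 : (h0 (ψ W) 1 : ℝ) ≤ h0 (ψ M) 1 := by exact_mod_cast hle
  linarith

end Pool.Agent.H36.RZ
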