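import Pool.Agent.H24.RL.Neg
import Pool.Agent.H20.RT.Pp
import Pool.Agent.H20.RT.Loc
import Pool.Agent.H20.RT.Iso
import Pool.Agent.H89.RT.End
import Pool.Agent.H89.ZN.Red
import Pool.Agent.H36.RZ.Up

/-!
# [H36 RZ Sq] THEOREM R (MP_e49dc9_ag), part 2: `p.p = 0`

`sq_theta`: `p` nef, `l(p) > 0`, `p.p = 0`: `T(p,w,A) = 0` for all `w` in `Vp p`.  Otherwise there is an effective divisor `B = H ^ x * W`, `W` in
`Vp p`, with `T(p,B,B) < 0` (`exists_neg`, H24/RL); some prime component `S` has `T(p,B,S) < 0`, so `T(p,S,S) < 0`, so `T(p,.,S) = 0` on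
`Vp p` (`loc_neg`), and `T(p,B,S) = x T(p,H,S) ≥ 0`.
-/

set_option autoImplicit false

namespace Pool.Agent.H36.RZ

open Pool.Agent.H54.RV Pool.Agent.H83.TU Pool.Agent.H83.TK Pool.Agent.H20.TD Pool.Agent.H20.TP Pool.Agent.H20.RT
  Pool.Agent.H24.ZL
open Pool.Agent.H24.VP (RR Tri Sf Cls chi exists_sf cv_pos t_int fac_eff nn_two)

variable {k K : Type} [Field k] [Field K] [Algebra k K] {X : Mod k K} {r : ℕ}
  {ν : Cart X →* Multiplicative (Fin r → ℤ)} {T : Cart X → Cart X → Cart X → ℝ} {l₀ : Cart X → ℝ} {c : ℝ} {TR : Tri3 r}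
  {p : Fin r → ℝ} {A : Cart X}

/-- a nef class and two different prime divisors -/
private theorem two_nn [CharZero k] [IsAlgClosed k] [T0Space X.P] (h : Hyp X) (hr : RR T l₀ c) (hν : NumR ν)
    (hT : ∀ U V W, TR (cR ν U) (cR ν V) (cR ν W) = T U V W) (hp : p ∈ closure (CC ν)) (P P' : PDiv X) {S S' : Cart X}
    (hS : SPr X P.η S) (hS' : SPr X P'.η S') (hne : P.η ≠ P'.η) : 0 ≤ TR p (cR ν S') (cR ν S) := by
  rw [← cl_eq h.var hν] at hp
  have h2 : ∀ x ∈ AmpR ν, 0 ≤ TR x (cR ν S') (cR ν S) := by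
    rintro x ⟨m₁, c₁, D₁, a1, a2, rfl⟩
    simp only [map_sum, map_smul, LinearMap.sum_apply, LinearMap.smul_apply, smul_eq_mul]
    refine Finset.sum_nonneg fun i _ => mul_nonneg (a1 i).le ?_
    have := hT (D₁ i) S' S
    rw [this, hr.tri.s12, hr.tri.s23]
    exact nn_two h hr (a2 i) P' P hS' hS hne.symm
  exact closure_minimal h2 (isClosed_le continuous_const (cont3' TR continuous_id continuous_const continuous_const)) hp

private theorem list_tr1 (L : List (PDiv X × Cart X)) (v u : Fin r → ℝ) :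
    TR v (cR ν (L.map Prod.snd).prod) u = (L.map fun x => TR v (cR ν x.2) u).sum := by
  induction L with
  | nil =>
    rw [List.map_nil, List.prod_nil, cR_one, map_zero, LinearMap.zero_apply, List.map_nil, List.sum_nil]
  | cons x L ih =>
    rw [List.map_cons, List.prod_cons, cR_mul, map_add, LinearMap.add_apply, ih, List.map_cons, List.sum_cons]

theorem sq_theta [CharZero k] [IsAlgClosed k] [T0Space X.P] (h : Hyp X) (hr : RR T l₀ c) (hν : NumR ν)
    (hT : ∀ U V W, TR (cR ν U) (cR ν V) (cR ν W) = T U V W) {l : (Fin r → ℝ) →ₗ[ℝ] ℝ} (hl : ∀ D, l (cR ν D) = l₀ D)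
    (hA : Ample A) (hp : p ∈ closure (CC ν)) (hlp : 0 < l p) (hpp : TR p p = 0) :
    ∀ w ∈ Vp p, TR p w (cR ν A) = 0 := by
  classical
  have s1 := tr_s12 hr hν hT
  have s2 := tr_s23 hr hν hT
  have hAC : cR ν A ∈ CC ν := cc_amp h.var hν hA
  have h1 : 0 ≤ TR p (cR ν A) (cR ν A) := tr_nn h hr hν hT hp (subset_closure hAC) (subset_closure hAC)
  rcases h1.eq_or_lt with h1 | h1
  · intro w _
    rw [s2, pq_zero h hr hν hT hA hp (subset_closure hAC) h1.symm, LinearMap.zero_apply]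
  by_contra hcon
  push Not at hcon
  obtain ⟨w₀, hw₀, hw₀A⟩ := hcon
  obtain ⟨m, k', L, i1, i2, i3, S, ψ, hm, hS⟩ := exists_sf h hA
  have hm0 : (0 : ℝ) < m := by exact_mod_cast hm
  obtain ⟨H, hH⟩ : ∃ H, H = A ^ m := ⟨_, rfl⟩
  rw [← hH] at hS
  have hcH : cR ν H = (m : ℝ) • cR ν A := by
    rw [hH]
    change rv (ci ν (A ^ m)) = _
    rw [ci_pow, rv_smul]
    push_cast
    rfl
  obtain ⟨s, q, cc, hlin, hpq⟩ := Pool.Agent.H89.ZN.red_lin p
  choose G hG using fun i : Fin s => ci_surj hν (fun j => cc j i)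
  have hlin' : ∀ z : Fin s → ℤ, ∑ i, q i * z i = 0 → z = 0 := fun z hz => hlin z (by
    rw [← hz]
    exact Finset.sum_congr rfl fun i _ => mul_comm _ _)
  have hpG : p = ∑ i, q i • cR ν (G i) := by
    funext j
    rw [Finset.sum_apply, hpq]
    refine Finset.sum_congr rfl fun i _ => ?_
    rw [Pi.smul_apply, smul_eq_mul, mul_comm]
    change q i * (cc j i : ℝ) = q i * rv (ci ν (G i)) j
    rw [hG]
    rfl
  have hGV : ∀ i, cR ν (G i) ∈ Vp p := by
    intro i
    rw [mem_vp]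
    intro φ hφ
    have e1 : ∀ i, ∃ z : ℤ, rv φ ⬝ᵥ cR ν (G i) = z := fun i => ⟨∑ j, φ j * ci ν (G i) j, by
      rw [dotProduct]
      push_cast
      rfl⟩
    choose z hz using e1
    have e2 : ∑ i, (z i : ℝ) * q i = 0 := by
      rw [← hφ]
      conv_rhs => rw [hpG]
      rw [dotProduct_sum]
      refine Finset.sum_congr rfl fun i _ => ?_
      rw [dotProduct_smul, smul_eq_mul, hz, mul_comm]
    rw [hz, hlin z e2]
    simp
  have ht1 : ∀ U V, t1 T G q U V = TR p (cR ν U) (cR ν V) := by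
    intro U V
    unfold t1
    rw [hpG]
    simp only [map_sum, map_smul, LinearMap.sum_apply, LinearMap.smul_apply, smul_eq_mul]
    exact Finset.sum_congr rfl fun i _ => by rw [← hT]
  have hbf : ∀ U, bf T U G q q = 0 := by
    intro U
    rw [bf_t1 hr.tri]
    have e : ∑ i, q i * t1 T G q (G i) U = TR p p (cR ν U) := by
      have e1 : TR p p (cR ν U) = TR p (∑ i, q i • cR ν (G i)) (cR ν U) := by rw [← hpG]
      rw [e1]
      simp only [map_sum, map_smul, LinearMap.sum_apply, LinearMap.smul_apply, smul_eq_mul]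
      exact Finset.sum_congr rfl fun i _ => by rw [ht1]
    rw [e, hpp, LinearMap.zero_apply]
  have hβ : 0 < t1 T G q H H := by
    rw [ht1, hcH, map_smul, map_smul, LinearMap.smul_apply, smul_eq_mul, smul_eq_mul]
    positivity
  have hnef : ∀ E, Cls S ψ E → 0 ≤ t1 T G q E H := by
    intro E hE
    rw [ht1]
    rw [← cl_eq h.var hν] at hp
    have h2 : ∀ x ∈ AmpR ν, 0 ≤ TR x (cR ν E) (cR ν H) := by
      rintro x ⟨m₁, c₁, D₁, a1, a2, rfl⟩
      simp only [map_sum, map_smul, LinearMap.sum_apply, LinearMap.smul_apply, smul_eq_mul]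
      refine Finset.sum_nonneg fun i _ => mul_nonneg (a1 i).le ?_
      have := hT (D₁ i) E H
      rw [this]
      exact (cv_pos hr hS hE (a2 i)).le
    exact closure_minimal h2 (isClosed_le continuous_const (cont3' TR continuous_id continuous_const continuous_const)) hp
  have hθ : ∃ i, t1 T G q (G i) H ≠ 0 := by
    by_contra hcon
    push Not at hcon
    apply hw₀A
    have e1 : TR p w₀ (cR ν H) = ∑ i, q i * TR w₀ (cR ν (G i)) (cR ν H) := by
      conv_lhs => rw [hpG]
      simp only [map_sum, map_smul, LinearMap.sum_apply, LinearMap.smul_apply, smul_eq_mul]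
      exact Finset.sum_congr rfl fun i _ => by rw [s1]
    have e2 : TR p w₀ (cR ν H) = 0 := by
      rw [e1]
      refine Finset.sum_eq_zero fun i _ => ?_
      rw [vp_tri hr hν hT h.amp (p := p) (by rw [← ht1, hcon i]) hw₀, mul_zero]
    rw [hcH, map_smul, smul_eq_mul] at e2
    exact (mul_eq_zero.1 e2).resolve_left hm0.ne'
  have hN : ∀ w : Fin s → ℝ, t1 T G q H H * ∑ i, ∑ j, w i * w j * t1 T G q (G i) (G j) ≤
      (∑ i, w i * t1 T G q (G i) H) ^ 2 := by
    intro w
    obtain ⟨v, hv⟩ : ∃ v, v = ∑ i, w i • cR ν (G i) := ⟨_, rfl⟩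
    have h2 := hi_real h hr hν hT hp (L := cR ν H) (v := v) (by rw [← ht1]; exact hβ)
    have e1 : TR p v v = ∑ i, ∑ j, w i * w j * t1 T G q (G i) (G j) := by
      rw [hv]
      simp only [map_sum, map_smul, LinearMap.sum_apply, LinearMap.smul_apply, smul_eq_mul, Finset.mul_sum]
      rw [Finset.sum_comm]
      refine Finset.sum_congr rfl fun i _ => Finset.sum_congr rfl fun j _ => ?_
      rw [ht1]
      ring
    have e2 : TR p (cR ν H) v = ∑ i, w i * t1 T G q (G i) H := by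
      rw [s2, hv]
      simp only [map_sum, map_smul, LinearMap.sum_apply, LinearMap.smul_apply, smul_eq_mul]
      exact Finset.sum_congr rfl fun i _ => by rw [ht1]
    rw [e1, e2, ← ht1] at h2
    exact h2
  have hlq : 0 < ∑ i, q i * l₀ (G i) := by
    have e : l p = ∑ i, q i * l₀ (G i) := by
      conv_lhs => rw [hpG]
      rw [map_sum]
      exact Finset.sum_congr rfl fun i _ => by rw [map_smul, smul_eq_mul, hl]
    rw [← e]
    exact hlp
  obtain ⟨x, n, hx, hB0, hBB⟩ := Pool.Agent.H24.RL.exists_neg h.var hr hS (t_int hr h.amp) hlin' hnef hβ hbf hN hθ hlq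
  obtain ⟨W, hW⟩ : ∃ W, W = ∏ i, G i ^ n i := ⟨_, rfl⟩
  obtain ⟨B, hBd⟩ : ∃ B, B = H ^ x * W := ⟨_, rfl⟩
  rw [← hW, ← hBd] at hB0 hBB
  have hcW : cR ν W = ∑ i, (n i : ℝ) • cR ν (G i) := by
    have e : ci ν W = ∑ i, n i • ci ν (G i) := by
      rw [hW]
      unfold ci
      rw [map_prod, toAdd_prod]
      exact Finset.sum_congr rfl fun i _ => by rw [map_zpow, toAdd_zpow]
    change rv (ci ν W) = _
    rw [e]
    funext j
    simp [rv, Finset.sum_apply]
  have hWV : cR ν W ∈ Vp p := by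
    rw [hcW]
    exact Submodule.sum_mem _ fun i _ => Submodule.smul_mem _ _ (hGV i)
  have hcB : cR ν B = (x : ℝ) • cR ν H + cR ν W := by
    rw [hBd, cR_mul]
    congr 1
    change rv (ci ν (H ^ x)) = _
    rw [ci_pow, rv_smul]
    push_cast
    rfl
  -- the components of `B`
  obtain ⟨f, hf0, hf⟩ := ex_sec hB0
  have hE : Effective (prin X f hf0 * B) := fun y => by
    have h2 := hf y
    rw [pow_one] at h2
    rw [mul_eq]
    exact h2
  have hpr : cR ν (prin X f hf0) = 0 := by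
    have h2 := (hν.ker _).2 (numz_prin (X := X) f hf0)
    change rv (ci ν (prin X f hf0)) = 0
    unfold ci
    rw [h2, toAdd_one]
    funext j
    simp [rv]
  obtain ⟨Ls, U, hLs, hU, hU', hEq⟩ := fac_eff h hr hE
  have hcE : cR ν B = cR ν ((Ls.map Prod.snd).prod * U) := by
    rw [← hEq, cR_mul, hpr, zero_add]
  have hBB' : TR p (cR ν B) (cR ν B) < 0 := by
    rw [← ht1]
    exact hBB
  obtain ⟨x₁, hx₁, hneg⟩ : ∃ x₁ ∈ Ls, TR p (cR ν B) (cR ν x₁.2) < 0 := by
    by_contra hcon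
    push Not at hcon
    have e1 : TR p (cR ν B) (cR ν B) = (Ls.map fun x => TR p (cR ν B) (cR ν x.2)).sum := by
      have e2 : TR p (cR ν B) (cR ν B) = TR p (cR ν B) (cR ν ((Ls.map Prod.snd).prod * U)) := by rw [← hcE]
      rw [e2, cR_mul, map_add, list_tr, tr_triv h hr hν hT hU hU', add_zero]
    rw [e1] at hBB'
    refine absurd hBB' (not_lt.2 (List.sum_nonneg fun y hy => ?_))
    obtain ⟨x', hx', rfl⟩ := List.mem_map.1 hy
    exact hcon x' hx'
  obtain ⟨P, Q⟩ := x₁
  have hQ : SPr X P.η Q := hLs _ hx₁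
  have hsum : TR p (cR ν B) (cR ν Q) = (Ls.map fun x => TR p (cR ν x.2) (cR ν Q)).sum := by
    rw [hcE, cR_mul, map_add, LinearMap.add_apply, list_tr1]
    have e : TR p (cR ν U) (cR ν Q) = 0 := by
      rw [s2]
      exact tr_triv h hr hν hT hU hU' _ _
    rw [e, add_zero]
  have hQQ : TR p (cR ν Q) (cR ν Q) < 0 := by
    by_contra hcon
    push Not at hcon
    have hneg' : TR p (cR ν B) (cR ν Q) < 0 := hneg
    rw [hsum] at hneg'
    refine absurd hneg' (not_lt.2 (List.sum_nonneg fun y hy => ?_))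
    obtain ⟨x', hx', rfl⟩ := List.mem_map.1 hy
    have hS' := hLs _ hx'
    by_cases hne : P.η = x'.1.η
    · rw [← hne] at hS'
      have e1 : TR p (cR ν Q) (cR ν Q) = TR p (cR ν Q) (cR ν x'.2) :=
        Pool.Agent.H89.RT.spr_R h hr hν hT hQ hS' _ _
      rw [s2, ← e1]
      exact hcon
    · exact two_nn h hr hν hT hp P x'.1 hQ hS' hne
  have hzQ : TR p p (cR ν Q) = 0 := by rw [hpp, LinearMap.zero_apply]
  have htr := trdeg_pdiv h P
  have h5 := loc_neg h hr hν hT htr hQ hA hp hzQ hQQ hWV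
  have h6 := tpa_nn h hr hν hT htr hQ hS.hH hp
  have hneg' : TR p (cR ν B) (cR ν Q) < 0 := hneg
  rw [hcB, map_add, map_smul, LinearMap.add_apply, LinearMap.smul_apply, smul_eq_mul, h5, add_zero] at hneg'
  have h7 : 0 ≤ (x : ℝ) * TR p (cR ν H) (cR ν Q) := mul_nonneg (Nat.cast_nonneg _) h6
  linarith

end Pool.Agent.H36.RZ
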