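import Pool.Agent.H36.RZ.Up
import Pool.Agent.H20.RT.Pp
import Pool.Agent.H20.RT.Bgd
import Pool.Agent.H36.TZ.Ub
import Pool.Agent.H89.ZN.Red

/-!
# [H36 RZ SqU] THEOREM R (MP_e49dc9_ag), part 2: `p.p = 0`

`sq_pts`: integral points near the ray of `q` with a small positive value of `θ`.  `sq_theta'`: `p` nef, `l(p) > 0`, `p.p = 0`: `T(p,w,A) = 0` for all
`w` in `Vp p`, from the lower bound (LOW, hypothesis `Low`) and the upper bound (UP).
-/

set_option autoImplicit false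

namespace Pool.Agent.H36.RZ

open Pool.Agent.H54.RV Pool.Agent.H83.TU Pool.Agent.H83.TK Pool.Agent.H20.TD Pool.Agent.H20.TP Pool.Agent.H20.RT
  Pool.Agent.H24.ZL
open Pool.Agent.H24.VP (RR Tri Sf Cls chi exists_sf cv_pos)

/-- integral points near the ray -/
theorem sq_pts {s : ℕ} {q : Fin s → ℝ} (hlin : ∀ z : Fin s → ℤ, ∑ i, (z i : ℝ) * q i = 0 → z = 0) {θ : Fin s → ℝ}
    (hθ : ∃ i, θ i ≠ 0) (hθq : ∑ i, q i * θ i = 0) {δ ε : ℝ} (hδ : 0 < δ) (hε : 0 < ε) :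
    ∃ a : ℝ, 0 < a ∧ ∀ M : ℝ, ∃ (x : ℝ) (n : Fin s → ℤ), M ≤ x ∧ (∀ i, |(n i : ℝ) - x * q i| ≤ δ) ∧
      a ≤ ∑ i, (n i : ℝ) * θ i ∧ ∑ i, (n i : ℝ) * θ i ≤ ε := by
  classical
  obtain ⟨K, hK⟩ : ∃ K : ℝ, K = ∑ i, |θ i| := ⟨_, rfl⟩
  have hK0 : 0 ≤ K := by rw [hK]; exact Finset.sum_nonneg fun i _ => abs_nonneg _
  -- the value at a point near the line
  have hval : ∀ (n : Fin s → ℤ) (x d : ℝ), (∀ i, |(n i : ℝ) - x * q i| ≤ d) → |∑ i, (n i : ℝ) * θ i| ≤ d * K := by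
    intro n x d hn
    have e : ∑ i, (n i : ℝ) * θ i = ∑ i, ((n i : ℝ) - x * q i) * θ i := by
      have e1 : ∑ i, ((n i : ℝ) - x * q i) * θ i = ∑ i, (n i : ℝ) * θ i - x * ∑ i, q i * θ i := by
        rw [Finset.mul_sum, ← Finset.sum_sub_distrib]
        exact Finset.sum_congr rfl fun i _ => by ring
      rw [e1, hθq, mul_zero, sub_zero]
    rw [e, hK]
    exact sum_bd _ _ hn
  obtain ⟨δ', hδ'⟩ : ∃ δ', δ' = min (δ / 2) (ε / (2 * (K + 1))) := ⟨_, rfl⟩
  have hδ'0 : 0 < δ' := by rw [hδ']; exact lt_min (by positivity) (by positivity)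
  have hδ'1 : δ' ≤ δ / 2 := by rw [hδ']; exact min_le_left _ _
  have hδ'2 : δ' * K ≤ ε / 2 := by
    have h1 : δ' ≤ ε / (2 * (K + 1)) := by rw [hδ']; exact min_le_right _ _
    have h2 : ε / (2 * (K + 1)) * K ≤ ε / 2 := by
      rw [div_mul_eq_mul_div, div_le_iff₀ (by positivity)]
      nlinarith
    exact (mul_le_mul_of_nonneg_right h1 hK0).trans h2
  -- a point `u` near the ray with `θ(u) ≠ 0`
  obtain ⟨u, y, hu, hu0⟩ : ∃ (u : Fin s → ℤ) (y : ℝ), (∀ i, |(u i : ℝ) - y * q i| ≤ δ') ∧ ∑ i, (u i : ℝ) * θ i ≠ 0 := by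
    by_contra hcon
    push Not at hcon
    have hsp := Pool.Agent.H32.TN.span_top hlin hδ'0 0
    obtain ⟨f, hf⟩ : ∃ f : (Fin s → ℚ) →ₗ[ℚ] ℝ, ∀ v, f v = ∑ i, ((v i : ℚ) : ℝ) * θ i := by
      refine ⟨∑ i, (LinearMap.proj i : (Fin s → ℚ) →ₗ[ℚ] ℚ).smulRight (θ i), fun v => ?_⟩
      rw [LinearMap.sum_apply]
      refine Finset.sum_congr rfl fun i _ => ?_
      rw [LinearMap.smulRight_apply, LinearMap.proj_apply, Rat.smul_def]
    have h1 : (⊤ : Submodule ℚ (Fin s → ℚ)) ≤ LinearMap.ker f := by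
      rw [← hsp, Submodule.span_le]
      rintro v ⟨n, ⟨x, -, hn⟩, rfl⟩
      rw [SetLike.mem_coe, LinearMap.mem_ker, hf]
      have := hcon n x hn
      simpa using this
    obtain ⟨i, hi⟩ := hθ
    apply hi
    have h2 := h1 (show (Pi.single i 1 : Fin s → ℚ) ∈ _ from Submodule.mem_top)
    rw [LinearMap.mem_ker, hf, Finset.sum_eq_single i] at h2
    · simpa using h2
    · intro j _ hj
      simp [hj]
    · intro h3
      exact absurd (Finset.mem_univ i) h3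
  obtain ⟨σ, hσ, hσu⟩ : ∃ σ : ℤ, |(σ : ℝ)| = 1 ∧ (σ : ℝ) * ∑ i, (u i : ℝ) * θ i = |∑ i, (u i : ℝ) * θ i| := by
    rcases le_total 0 (∑ i, (u i : ℝ) * θ i) with h1 | h1
    · exact ⟨1, by simp, by rw [abs_of_nonneg h1]; simp⟩
    · exact ⟨-1, by simp, by rw [abs_of_nonpos h1]; simp⟩
  obtain ⟨b, hb⟩ : ∃ b, b = |∑ i, (u i : ℝ) * θ i| := ⟨_, rfl⟩
  have hb0 : 0 < b := by rw [hb]; exact abs_pos.2 hu0
  have hb1 : b ≤ ε / 2 := by rw [hb]; exact (hval u y δ' hu).trans hδ'2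
  refine ⟨b / 2, by positivity, fun M => ?_⟩
  obtain ⟨ε', hε'⟩ : ∃ ε', ε' = min (δ / 2) (b / (2 * (K + 1))) := ⟨_, rfl⟩
  have hε'0 : 0 < ε' := by rw [hε']; exact lt_min (by positivity) (by positivity)
  have hε'1 : ε' ≤ δ / 2 := by rw [hε']; exact min_le_left _ _
  have hε'2 : ε' * K ≤ b / 2 := by
    have h1 : ε' ≤ b / (2 * (K + 1)) := by rw [hε']; exact min_le_right _ _
    have h2 : b / (2 * (K + 1)) * K ≤ b / 2 := by
      rw [div_mul_eq_mul_div, div_le_iff₀ (by positivity)]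
      nlinarith
    exact (mul_le_mul_of_nonneg_right h1 hK0).trans h2
  obtain ⟨x, d, hx, hd⟩ := Pool.Agent.H32.TN.dio q hε'0 (M + |y|)
  have hdv := abs_le.1 (hval d x ε' hd)
  refine ⟨σ * y + x, fun i => σ * u i + d i, ?_, fun i => ?_, ?_, ?_⟩
  · have h1 : |(σ : ℝ) * y| = |y| := by rw [abs_mul, hσ, one_mul]
    have h2 := neg_abs_le ((σ : ℝ) * y)
    rw [h1] at h2
    linarith
  · have e : (((σ * u i + d i : ℤ)) : ℝ) - (σ * y + x) * q i = σ * ((u i : ℝ) - y * q i) + ((d i : ℝ) - x * q i) := by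
      push_cast
      ring
    rw [e]
    refine (abs_add_le _ _).trans ?_
    rw [abs_mul, hσ, one_mul]
    have h1 := hu i
    have h2 := hd i
    linarith
  · have e : ∑ i, (((σ * u i + d i : ℤ)) : ℝ) * θ i = σ * ∑ i, (u i : ℝ) * θ i + ∑ i, (d i : ℝ) * θ i := by
      rw [Finset.mul_sum, ← Finset.sum_add_distrib]
      refine Finset.sum_congr rfl fun i _ => ?_
      push_cast
      ring
    rw [e, hσu, ← hb]
    linarith
  · have e : ∑ i, (((σ * u i + d i : ℤ)) : ℝ) * θ i = σ * ∑ i, (u i : ℝ) * θ i + ∑ i, (d i : ℝ) * θ i := by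
      rw [Finset.mul_sum, ← Finset.sum_add_distrib]
      refine Finset.sum_congr rfl fun i _ => ?_
      push_cast
      ring
    rw [e, hσu, ← hb]
    linarith

variable {k K : Type} [Field k] [Field K] [Algebra k K] {X : Mod k K} {r : ℕ}
  {ν : Cart X →* Multiplicative (Fin r → ℤ)} {T : Cart X → Cart X → Cart X → ℝ} {l₀ : Cart X → ℝ} {c : ℝ} {TR : Tri3 r}
  {p : Fin r → ℝ} {A : Cart X}

/-- the lower bound (LOW) -/
def Low (T : Cart X → Cart X → Cart X → ℝ) (l₀ : Cart X → ℝ) (c : ℝ) (H : Cart X) {s : ℕ} (G : Fin s → Cart X)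
    (q : Fin s → ℝ) : Prop :=
  ∀ R₀ ε₀ : ℝ, 0 < ε₀ → ∃ C x₀ : ℝ, ∀ (n : Fin s → ℤ) (x : ℝ), x₀ ≤ x → (∀ i, |(n i : ℝ) - x * q i| ≤ R₀) →
    ε₀ ≤ ∑ i, (n i : ℝ) * t1 T G q (G i) H → chi T l₀ c (∏ i, G i ^ n i) - C ≤ h0 (∏ i, G i ^ n i) 1

/-- the Hilbert polynomial near the ray of `p` -/
theorem chi_near (hr : RR T l₀ c) (hν : NumR ν) (hT : ∀ U V W, TR (cR ν U) (cR ν V) (cR ν W) = T U V W)
    {l : (Fin r → ℝ) →ₗ[ℝ] ℝ} (hl : ∀ D, l (cR ν D) = l₀ D) (hlp : 0 < l p) (hpp : TR p p = 0) :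
    ∃ δ : ℝ, 0 < δ ∧ ∃ C : ℝ, ∀ (x : ℝ) (W : Cart X), 0 ≤ x → ‖cR ν W - x • p‖ ≤ δ →
      3 / 4 * l p * x - C ≤ chi T l₀ c W := by
  have c1 : Filter.Tendsto (fun w : Fin r → ℝ => TR p w w) (nhds 0) (nhds 0) := by
    have := (cont3' TR (f := fun _ => p) (g := fun w => w) (e := fun w => w) continuous_const continuous_id
      continuous_id).tendsto 0
    simpa using this
  have c2 : Filter.Tendsto (fun w : Fin r → ℝ => TR w w w) (nhds 0) (nhds 0) := by
    have := (cont3' TR (f := fun w => w) (g := fun w => w) (e := fun w => w) continuous_id continuous_id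
      continuous_id).tendsto 0
    simpa using this
  have c3 : Filter.Tendsto (fun w : Fin r → ℝ => l w) (nhds 0) (nhds 0) := by
    have := (LinearMap.continuous_of_finiteDimensional l).tendsto 0
    rwa [map_zero] at this
  have e1 := c1.eventually (Metric.ball_mem_nhds (0 : ℝ) (show 0 < l p / 2 by linarith))
  have e2 := c2.eventually (Metric.ball_mem_nhds (0 : ℝ) one_pos)
  have e3 := c3.eventually (Metric.ball_mem_nhds (0 : ℝ) one_pos)
  obtain ⟨δ, hδ, hb⟩ := Metric.eventually_nhds_iff.1 (e1.and (e2.and e3))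
  refine ⟨δ / 2, by positivity, 7 / 6 + |c|, fun x W hx hW => ?_⟩
  obtain ⟨w, hw⟩ : ∃ w, w = cR ν W - x • p := ⟨_, rfl⟩
  rw [← hw] at hW
  have hWw : cR ν W = x • p + w := by rw [hw]; abel
  obtain ⟨b1, b2, b3⟩ := hb (y := w) (by rw [dist_zero_right]; linarith)
  rw [Real.dist_eq, sub_zero] at b1 b2 b3
  have b1 := abs_lt.1 b1
  have b2 := abs_lt.1 b2
  have b3 := abs_lt.1 b3
  have s1 := tr_s12 hr hν hT
  have s2 := tr_s23 hr hν hT
  have z1 : ∀ v, TR p p v = 0 := fun v => by rw [hpp, LinearMap.zero_apply]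
  have z2 : ∀ v, TR p v p = 0 := fun v => by rw [s2, z1]
  have z3 : ∀ v, TR v p p = 0 := fun v => by rw [s1, z2]
  have hcube : T W W W = 3 * x * TR p w w + TR w w w := by
    rw [← hT, hWw]
    simp only [map_add, map_smul, LinearMap.add_apply, LinearMap.smul_apply, smul_eq_mul, z1, z2, z3]
    rw [s1 w p w, s2 w w p, s1 w p w]
    ring
  have hlin : l₀ W = x * l p + l w := by
    rw [← hl, hWw, map_add, map_smul, smul_eq_mul]
  unfold chi
  rw [hcube, hlin]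
  have h1 : x * (-(l p / 2)) ≤ x * TR p w w := mul_le_mul_of_nonneg_left b1.1.le hx
  have h2 := neg_abs_le c
  have h3 := b2.1
  have h4 := b3.1
  nlinarith

theorem sq_theta' [CharZero k] [IsAlgClosed k] [T0Space X.P] (h : Hyp X) (hr : RR T l₀ c) (hν : NumR ν)
    (hT : ∀ U V W, TR (cR ν U) (cR ν V) (cR ν W) = T U V W) {l : (Fin r → ℝ) →ₗ[ℝ] ℝ} (hl : ∀ D, l (cR ν D) = l₀ D)
    (hLow : ∀ {H : Cart X} {k' L : Type} [Field k'] [Field L] [Algebra k' L] {S : Mod k' L} {ψ : Cart X →* Cart S}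
      {s : ℕ} {G : Fin s → Cart X} {q : Fin s → ℝ}, Sf H S ψ → (∀ z : Fin s → ℤ, ∑ i, q i * z i = 0 → z = 0) →
      bf T H G q q = 0 → 0 < t1 T G q H H → (∀ E, Cls S ψ E → 0 ≤ t1 T G q E H) → Low T l₀ c H G q)
    (hA : Ample A) (hp : p ∈ closure (CC ν)) (hlp : 0 < l p) (hpp : TR p p = 0) :
    ∀ w ∈ Vp p, TR p w (cR ν A) = 0 := by
  classical
  have s1 := tr_s12 hr hν hT
  have s2 := tr_s23 hr hν hT
  have hAC : cR ν A ∈ CC ν := cc_amp h.var hν hA
  have h1 : 0 ≤ TR p (cR ν A) (cR ν A) := tr_nn h hr hν hT hp (subset_closure hAC) (subset_closure hAC)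
  rcases h1.eq_or_lt with h1 | h1
  · intro w _
    rw [s2, pq_zero h hr hν hT hA hp (subset_closure hAC) h1.symm, LinearMap.zero_apply]
  by_contra hcon
  push Not at hcon
  obtain ⟨w₀, hw₀, hw₀A⟩ := hcon
  obtain ⟨m, k', L, i1, i2, i3, S, ψ, hm, hS⟩ := exists_sf h hA
  have hm0 : (0 : ℝ) < m := by exact_mod_cast hm
  obtain ⟨H, hH⟩ : ∃ H, H = A ^ m := ⟨_, rfl⟩
  rw [← hH] at hS
  have hcH : cR ν H = (m : ℝ) • cR ν A := by
    rw [hH]
    change rv (ci ν (A ^ m)) = _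
    rw [ci_pow, rv_smul]
    push_cast
    rfl
  obtain ⟨s, q, cc, hlin, hpq⟩ := Pool.Agent.H89.ZN.red_lin p
  choose G hG using fun i : Fin s => ci_surj hν (fun j => cc j i)
  have hlin' : ∀ z : Fin s → ℤ, ∑ i, q i * z i = 0 → z = 0 := fun z hz => hlin z (by
    rw [← hz]
    exact Finset.sum_congr rfl fun i _ => mul_comm _ _)
  have hpG : p = ∑ i, q i • cR ν (G i) := by
    funext j
    rw [Finset.sum_apply, hpq]
    refine Finset.sum_congr rfl fun i _ => ?_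
    rw [Pi.smul_apply, smul_eq_mul, mul_comm]
    change q i * (cc j i : ℝ) = q i * rv (ci ν (G i)) j
    rw [hG]
    rfl
  have ht1 : ∀ U V, t1 T G q U V = TR p (cR ν U) (cR ν V) := by
    intro U V
    unfold t1
    rw [hpG]
    simp only [map_sum, map_smul, LinearMap.sum_apply, LinearMap.smul_apply, smul_eq_mul]
    exact Finset.sum_congr rfl fun i _ => by rw [← hT]
  have hbf : bf T H G q q = 0 := by
    rw [bf_t1 hr.tri]
    have e : ∑ i, q i * t1 T G q (G i) H = TR p p (cR ν H) := by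
      have e1 : TR p p (cR ν H) = TR p (∑ i, q i • cR ν (G i)) (cR ν H) := by rw [← hpG]
      rw [e1]
      simp only [map_sum, map_smul, LinearMap.sum_apply, LinearMap.smul_apply, smul_eq_mul]
      exact Finset.sum_congr rfl fun i _ => by rw [ht1]
    rw [e, hpp, LinearMap.zero_apply]
  have hβ : 0 < t1 T G q H H := by
    rw [ht1, hcH, map_smul, map_smul, LinearMap.smul_apply, smul_eq_mul, smul_eq_mul]
    positivity
  have hnef : ∀ E, Cls S ψ E → 0 ≤ t1 T G q E H := by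
    intro E hE
    rw [ht1]
    rw [← cl_eq h.var hν] at hp
    have h2 : ∀ x ∈ AmpR ν, 0 ≤ TR x (cR ν E) (cR ν H) := by
      rintro x ⟨m₁, c₁, D₁, a1, a2, rfl⟩
      simp only [map_sum, map_smul, LinearMap.sum_apply, LinearMap.smul_apply, smul_eq_mul]
      refine Finset.sum_nonneg fun i _ => mul_nonneg (a1 i).le ?_
      have := hT (D₁ i) E H
      rw [this]
      exact (cv_pos hr hS hE (a2 i)).le
    exact closure_minimal h2 (isClosed_le continuous_const (cont3' TR continuous_id continuous_const continuous_const)) hp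
  have hθ : ∃ i, t1 T G q (G i) H ≠ 0 := by
    by_contra hcon
    push Not at hcon
    apply hw₀A
    have e1 : TR p w₀ (cR ν H) = ∑ i, q i * TR w₀ (cR ν (G i)) (cR ν H) := by
      conv_lhs => rw [hpG]
      simp only [map_sum, map_smul, LinearMap.sum_apply, LinearMap.smul_apply, smul_eq_mul]
      exact Finset.sum_congr rfl fun i _ => by rw [s1]
    have e2 : TR p w₀ (cR ν H) = 0 := by
      rw [e1]
      refine Finset.sum_eq_zero fun i _ => ?_
      rw [vp_tri hr hν hT h.amp (p := p) (by rw [← ht1, hcon i]) hw₀, mul_zero]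
    rw [hcH, map_smul, smul_eq_mul] at e2
    exact (mul_eq_zero.1 e2).resolve_left hm0.ne'
  have hθq : ∑ i, q i * t1 T G q (G i) H = 0 := by
    rw [← bf_t1 hr.tri]
    exact hbf
  obtain ⟨δ₁, hδ₁, C₀, hchi⟩ := chi_near hr hν hT hl hlp hpp
  obtain ⟨N, hN⟩ : ∃ N : ℝ, N = ∑ i, ‖cR ν (G i)‖ := ⟨_, rfl⟩
  have hN0 : 0 ≤ N := by rw [hN]; positivity
  obtain ⟨δ, hδ⟩ : ∃ δ, δ = δ₁ / (N + 1) := ⟨_, rfl⟩
  have hδ0 : 0 < δ := by rw [hδ]; positivity
  obtain ⟨lam, hlam⟩ : ∃ lam, lam = 3 / 4 * l p := ⟨_, rfl⟩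
  have hlam0 : 0 < lam := by rw [hlam]; positivity
  obtain ⟨β, hβd⟩ : ∃ β, β = t1 T G q H H := ⟨_, rfl⟩
  rw [← hβd] at hβ
  obtain ⟨ε, hεd⟩ : ∃ ε, ε = min (lam / 12) (β / 2) := ⟨_, rfl⟩
  have hε0 : 0 < ε := by rw [hεd]; exact lt_min (by positivity) (by positivity)
  have hε1 : ε ≤ lam / 12 := by rw [hεd]; exact min_le_left _ _
  have hε2 : ε ≤ β / 2 := by rw [hεd]; exact min_le_right _ _
  obtain ⟨a, ha, hpts⟩ := sq_pts hlin hθ hθq hδ0 hε0
  obtain ⟨C₁, x₁, h5⟩ := hLow hS hlin' hbf (by rw [← hβd]; exact hβ) hnef δ a ha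
  obtain ⟨C₂, x₂, h6⟩ := up h.var hr hS hlin' hbf (by rw [← hβd]; exact hβ) hnef δ hε0
    (show 0 < lam / 4 by positivity)
  obtain ⟨x₃, hx₃⟩ := lin_ev (show 0 < lam / 2 by positivity) (C₀ + C₁ + C₂)
  obtain ⟨x, n, hx, hn, hn1, hn2⟩ := hpts (max 0 (max x₁ (max x₂ x₃)))
  have hx0 : 0 ≤ x := (le_max_left _ _).trans hx
  have hx1 : x₁ ≤ x := (le_max_left _ _).trans ((le_max_right _ _).trans hx)
  have hx2 : x₂ ≤ x := (le_max_left _ _).trans ((le_max_right _ _).trans ((le_max_right _ _).trans hx))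
  have hx3 : x₃ ≤ x := (le_max_right _ _).trans ((le_max_right _ _).trans ((le_max_right _ _).trans hx))
  obtain ⟨W, hW⟩ : ∃ W, W = ∏ i, G i ^ n i := ⟨_, rfl⟩
  have h7 := h5 n x hx1 hn hn1
  have h8 := h6 n x hx2 hn (ha.trans_le hn1) hn2
  have h9 := hx₃ x hx3
  rw [← hW] at h7 h8
  have hcW : cR ν W = ∑ i, (n i : ℝ) • cR ν (G i) := by
    have e : ci ν W = ∑ i, n i • ci ν (G i) := by
      rw [hW]
      unfold ci
      rw [map_prod, toAdd_prod]
      exact Finset.sum_congr rfl fun i _ => by rw [map_zpow, toAdd_zpow]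
    change rv (ci ν W) = _
    rw [e]
    funext j
    simp [rv, Finset.sum_apply]
  have h10 : ‖cR ν W - x • p‖ ≤ δ₁ := by
    have e : cR ν W - x • p = ∑ i, ((n i : ℝ) - x * q i) • cR ν (G i) := by
      rw [hcW]
      conv_lhs => rw [hpG]
      rw [Finset.smul_sum, ← Finset.sum_sub_distrib]
      refine Finset.sum_congr rfl fun i _ => ?_
      rw [smul_smul, sub_smul]
    rw [e]
    calc ‖∑ i, ((n i : ℝ) - x * q i) • cR ν (G i)‖ ≤ ∑ i, ‖((n i : ℝ) - x * q i) • cR ν (G i)‖ := norm_sum_le _ _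
      _ ≤ ∑ i, δ * ‖cR ν (G i)‖ := Finset.sum_le_sum fun i _ => by
          rw [norm_smul, Real.norm_eq_abs]
          exact mul_le_mul_of_nonneg_right (hn i) (norm_nonneg _)
      _ = δ * N := by rw [← Finset.mul_sum, hN]
      _ ≤ δ₁ := by
          rw [hδ, div_mul_eq_mul_div, div_le_iff₀ (by positivity)]
          nlinarith
  have h11 := hchi x W hx0 h10
  -- no sections of `W - H`
  have h12 : h0 (W * H⁻¹) 1 = 0 := by
    by_contra hne
    have h13 : 0 < h0 (W * H⁻¹) 1 := Nat.pos_of_ne_zero hne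
    have h14 : 0 ≤ TR p (cR ν (W * H⁻¹)) (cR ν H) := by
      rw [← cl_eq h.var hν] at hp
      have h2 : ∀ x ∈ AmpR ν, 0 ≤ TR x (cR ν (W * H⁻¹)) (cR ν H) := by
        rintro x ⟨m₁, c₁, D₁, a1, a2, rfl⟩
        simp only [map_sum, map_smul, LinearMap.sum_apply, LinearMap.smul_apply, smul_eq_mul]
        refine Finset.sum_nonneg fun i _ => mul_nonneg (a1 i).le ?_
        have := hT (D₁ i) (W * H⁻¹) H
        rw [this, hr.tri.s12]
        exact Pool.Agent.H36.TZ.sec_nn h hr (a2 i) hS.hH h13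
      exact closure_minimal h2 (isClosed_le continuous_const (cont3' TR continuous_id continuous_const
        continuous_const)) hp
    have h15 := ht1 (W * H⁻¹) H
    rw [t1_mul hr.tri] at h15
    have h16 : t1 T G q H⁻¹ H = - β := by
      rw [hβd]
      have := t1_mul (G := G) (p := q) hr.tri H H⁻¹ H
      rw [mul_inv_cancel] at this
      have h17 : t1 T G q 1 H = 0 := by
        have h18 := t1_mul (G := G) (p := q) hr.tri 1 1 H
        rw [mul_one] at h18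
        linarith
      rw [h17] at this
      linarith
    have h17 : t1 T G q W H = ∑ i, (n i : ℝ) * t1 T G q (G i) H := by
      rw [hW]
      exact t1_pw hr.tri n
    rw [← h15, h16, h17] at h14
    linarith
  have h13 := hS.le W
  rw [h12, zero_add] at h13
  have h14 : (h0 W 1 : ℝ) ≤ h0 (ψ W) 1 := by exact_mod_cast h13
  have h15 : (3 * ε + lam / 4) * x ≤ lam / 2 * x := mul_le_mul_of_nonneg_right (by linarith) hx0
  rw [← hlam] at h11
  nlinarith

end Pool.Agent.H36.RZ
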